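import Pool.Agent.W203.WS.Stm2

set_option autoImplicit false

namespace Pool.Agent.W514.WT

open MeasureTheory Finset Pool.Agent.W203.WS

theorem norm_e (x : ℝ) : ‖e x‖ = 1 := by
  unfold e
  rw [show 2 * (Real.pi : ℂ) * Complex.I * (x : ℂ) = ((2 * Real.pi * x : ℝ) : ℂ) * Complex.I by
    push_cast; ring]
  exact Complex.norm_exp_ofReal_mul_I _

theorem e_add (x y : ℝ) : e (x + y) = e x * e y := by
  unfold e
  rw [← Complex.exp_add]
  congr 1
  push_cast; ring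

theorem e_sum {ι : Type} (s : Finset ι) (f : ι → ℝ) : e (∑ i ∈ s, f i) = ∏ i ∈ s, e (f i) := by
  classical
  induction s using Finset.induction_on with
  | empty => simp [e]
  | insert a s ha ih => rw [sum_insert ha, prod_insert ha, e_add, ih]

noncomputable def rr0 : ℝ := Real.exp (-(Real.pi / 4))

theorem rr0_pos : 0 < rr0 := Real.exp_pos _

theorem rr0_lt : rr0 < 1 := by
  unfold rr0
  rw [Real.exp_lt_one_iff]
  have := Real.pi_pos
  linarith

theorem summ : Summable (fun m : ℤ => rr0 ^ m.natAbs / rr0) := by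
  have h : Summable (fun m : ℤ => rr0 ^ m.natAbs) := by
    apply Summable.of_nat_of_neg
    · simpa using summable_geometric_of_lt_one rr0_pos.le rr0_lt
    · simpa using summable_geometric_of_lt_one rr0_pos.le rr0_lt
  exact h.div_const _

noncomputable def C0 : ℝ := ∑' m : ℤ, rr0 ^ m.natAbs / rr0

theorem C0_nonneg : 0 ≤ C0 := tsum_nonneg fun _ => by have := rr0_pos; positivity

theorem usq (y : ℝ) (m : ℤ) (hm : m ≠ 0) :
    (m : ℝ) ^ 2 ≤ 4 * (y - 1 / 2 - ((⌊y⌋ + m : ℤ) : ℝ)) ^ 2 := by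
  have h1 := Int.floor_le y
  have h2 := Int.lt_floor_add_one y
  push_cast
  rcases lt_or_gt_of_ne hm with h | h
  · have h3 : (m : ℝ) ≤ -1 := by exact_mod_cast (by omega : m ≤ -1)
    nlinarith
  · have h3 : (1 : ℝ) ≤ m := by exact_mod_cast (by omega : 1 ≤ m)
    nlinarith

theorem term_le (σ y : ℝ) (hσ : 0 < σ) (hσ1 : σ ≤ 1) (m : ℤ) (hm : m ≠ 0) :
    Real.exp (-Real.pi * ((y - 1 / 2 - ((⌊y⌋ + m : ℤ) : ℝ)) / σ) ^ 2) ≤
      Real.exp (-(Real.pi / (4 * σ ^ 2))) * (rr0 ^ m.natAbs / rr0) := by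
  have hr : rr0 ^ m.natAbs / rr0 = Real.exp (-(Real.pi / 4) * (m.natAbs : ℝ) + Real.pi / 4) := by
    rw [Real.exp_add]
    unfold rr0
    rw [← Real.exp_nat_mul, div_eq_mul_inv, ← Real.exp_neg]
    congr 2
    · ring
    · ring
  rw [hr, ← Real.exp_add, Real.exp_le_exp]
  have h1 := usq y m hm
  set u : ℝ := y - 1 / 2 - ((⌊y⌋ + m : ℤ) : ℝ) with hu
  have hn : ((m.natAbs : ℕ) : ℝ) = |(m : ℝ)| := by
    rw [Nat.cast_natAbs]; push_cast; rfl
  rw [hn]
  have hm1 : 1 ≤ |(m : ℝ)| := by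
    rw [← Int.cast_abs]; exact_mod_cast Int.one_le_abs hm
  have hm2 : (m : ℝ) ^ 2 = |(m : ℝ)| ^ 2 := (sq_abs _).symm
  set v : ℝ := |(m : ℝ)| with hv
  have hs : 0 < σ ^ 2 := by positivity
  have hs1 : σ ^ 2 ≤ 1 := by nlinarith
  have hp := Real.pi_pos
  have key : 1 / (4 * σ ^ 2) + v / 4 - 1 / 4 ≤ (u / σ) ^ 2 := by
    rw [div_pow, le_div_iff₀ hs]
    have e1 : (1 / (4 * σ ^ 2) + v / 4 - 1 / 4) * σ ^ 2 = 1 / 4 + (v - 1) / 4 * σ ^ 2 := by
      field_simp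
      ring
    rw [e1]
    nlinarith
  have h5 := mul_le_mul_of_nonneg_left key hp.le
  have e2 : Real.pi * (1 / (4 * σ ^ 2) + v / 4 - 1 / 4) =
      Real.pi / (4 * σ ^ 2) + Real.pi / 4 * v - Real.pi / 4 := by ring
  rw [e2] at h5
  linarith

noncomputable def rho0 (σ t y : ℝ) : ℂ :=
  e (t * (⌊y⌋ : ℝ)) * (Real.exp (-Real.pi * ((y - 1 / 2 - (⌊y⌋ : ℝ)) / σ) ^ 2) : ℝ)

theorem norm_term (t : ℝ) (n : ℤ) (x : ℝ) :
    ‖e (t * n) * ((Real.exp x : ℝ) : ℂ)‖ = Real.exp x := by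
  rw [norm_mul, norm_e, one_mul, Complex.norm_real, Real.norm_of_nonneg (Real.exp_pos _).le]

theorem exp_neg_sq_le_one (z : ℝ) : Real.exp (-Real.pi * z ^ 2) ≤ 1 := by
  rw [Real.exp_le_one_iff]
  have := Real.pi_pos
  nlinarith [mul_nonneg this.le (sq_nonneg z)]

theorem norm_rho0 (σ t y : ℝ) : ‖rho0 σ t y‖ ≤ 1 := by
  unfold rho0
  rw [norm_term]
  exact exp_neg_sq_le_one _

theorem rho_sub (σ t y : ℝ) (hσ : 0 < σ) (hσ1 : σ ≤ 1) :
    ‖rho σ t y - rho0 σ t y‖ ≤ C0 * Real.exp (-(Real.pi / (4 * σ ^ 2))) := by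
  set F : ℤ → ℂ := fun m => e (t * ((⌊y⌋ + m : ℤ) : ℝ)) *
    ((Real.exp (-Real.pi * ((y - 1 / 2 - ((⌊y⌋ + m : ℤ) : ℝ)) / σ) ^ 2) : ℝ) : ℂ) with hF
  have hE1 : Real.exp (-(Real.pi / (4 * σ ^ 2))) ≤ 1 := by
    rw [Real.exp_le_one_iff]
    have : 0 ≤ Real.pi / (4 * σ ^ 2) := by have := Real.pi_pos; positivity
    linarith
  have hnF : ∀ m, ‖F m‖ = Real.exp (-Real.pi * ((y - 1 / 2 - ((⌊y⌋ + m : ℤ) : ℝ)) / σ) ^ 2) :=
    fun m => norm_term t _ _
  have hB : ∀ m : ℤ, 0 ≤ rr0 ^ m.natAbs / rr0 := fun m => by have := rr0_pos; positivity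
  have hsF : Summable F := by
    refine Summable.of_norm_bounded summ fun m => ?_
    rw [hnF]
    rcases eq_or_ne m 0 with hm | hm
    · subst hm
      refine (exp_neg_sq_le_one _).trans ?_
      rw [Int.natAbs_zero, pow_zero, le_div_iff₀ rr0_pos, one_mul]
      exact rr0_lt.le
    · refine (term_le σ y hσ hσ1 m hm).trans ?_
      exact mul_le_of_le_one_left (hB m) hE1
  have h1 : rho σ t y = ∑' m, F m := by
    unfold rho
    exact ((Equiv.addLeft ⌊y⌋).tsum_eq (fun n : ℤ => e (t * n) *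
      ((Real.exp (-Real.pi * ((y - 1 / 2 - n) / σ) ^ 2) : ℝ) : ℂ))).symm
  have h2 : rho0 σ t y = F 0 := by
    unfold rho0
    rw [hF]
    simp
  rw [h1, h2, hsF.tsum_eq_add_tsum_ite 0, add_sub_cancel_left]
  have h3 : HasSum (fun m : ℤ => Real.exp (-(Real.pi / (4 * σ ^ 2))) * (rr0 ^ m.natAbs / rr0))
      (Real.exp (-(Real.pi / (4 * σ ^ 2))) * C0) := summ.hasSum.mul_left _
  rw [mul_comm C0]
  refine tsum_of_norm_bounded h3 fun m => ?_
  split_ifs with hm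
  · rw [norm_zero]
    exact mul_nonneg (Real.exp_pos _).le (hB m)
  · rw [hnF]
    exact term_le σ y hσ hσ1 m hm

theorem prod_sub {ι : Type} (s : Finset ι) (a b : ι → ℂ) (A δ : ℝ) (hA : 0 ≤ A) (hδ : 0 ≤ δ)
    (ha : ∀ i, ‖a i‖ ≤ A) (hb : ∀ i, ‖b i‖ ≤ A) (hab : ∀ i, ‖a i - b i‖ ≤ A * δ) :
    ‖∏ i ∈ s, a i - ∏ i ∈ s, b i‖ ≤ s.card * A ^ s.card * δ := by
  classical
  induction s using Finset.induction_on with
  | empty => simp
  | insert i s hi ih =>
    rw [prod_insert hi, prod_insert hi, card_insert_of_notMem hi]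
    have e1 : a i * ∏ j ∈ s, a j - b i * ∏ j ∈ s, b j =
        (a i - b i) * ∏ j ∈ s, a j + b i * (∏ j ∈ s, a j - ∏ j ∈ s, b j) := by ring
    have h1 : ‖∏ j ∈ s, a j‖ ≤ A ^ s.card := by
      rw [norm_prod, ← prod_const]
      exact prod_le_prod (fun _ _ => norm_nonneg _) fun j _ => ha j
    rw [e1]
    refine (norm_add_le _ _).trans ?_
    rw [norm_mul, norm_mul]
    have h2 : ‖a i - b i‖ * ‖∏ j ∈ s, a j‖ ≤ (A * δ) * A ^ s.card :=
      mul_le_mul (hab i) h1 (norm_nonneg _) (by positivity)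
    have h3 : ‖b i‖ * ‖∏ j ∈ s, a j - ∏ j ∈ s, b j‖ ≤ A * (s.card * A ^ s.card * δ) :=
      mul_le_mul (hb i) ih (norm_nonneg _) hA
    refine (add_le_add h2 h3).trans (le_of_eq ?_)
    push_cast
    ring

theorem int_e (m : ℤ) (hm : m ≠ 0) : ∫ t in (-(1 / 2) : ℝ)..(1 / 2), e (t * m) = 0 := by
  have hc : (2 * (Real.pi : ℂ) * Complex.I * (m : ℂ)) ≠ 0 := by
    have := Complex.two_pi_I_ne_zero
    have h2 : (m : ℂ) ≠ 0 := by exact_mod_cast hm
    exact mul_ne_zero this h2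
  have h1 : ∀ t : ℝ, e (t * m) = Complex.exp ((2 * (Real.pi : ℂ) * Complex.I * (m : ℂ)) * t) := by
    intro t
    unfold e
    congr 1
    push_cast; ring
  simp_rw [h1]
  rw [integral_exp_mul_complex hc]
  have h2 : (2 * (Real.pi : ℂ) * Complex.I * (m : ℂ)) * ((1 / 2 : ℝ) : ℂ) =
      (2 * (Real.pi : ℂ) * Complex.I * (m : ℂ)) * ((-(1 / 2) : ℝ) : ℂ) +
        m * (2 * Real.pi * Complex.I) := by
    push_cast; ring
  rw [h2, Complex.exp_add, Complex.exp_int_mul_two_pi_mul_I, mul_one, sub_self, zero_div]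

theorem cont_e (c : ℝ) : Continuous (fun t : ℝ => e (t * c)) := by
  unfold e
  fun_prop

theorem t_NEAR : S_NEAR := by
  intro s
  refine ⟨6 * (1 + C0), by have := C0_nonneg; positivity, ?_⟩
  intro k P σ θ N hP hσ hσ1 hN
  have hC0 := C0_nonneg
  have hP0 : (0 : ℝ) < P := by exact_mod_cast hP
  set A : ℝ := 3 * (1 + C0) * P with hA
  have hA0 : 0 ≤ A := by positivity
  set E : ℝ := Real.exp (-(Real.pi / (4 * σ ^ 2))) with hE
  have hE0 : 0 ≤ E := (Real.exp_pos _).le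
  have hE1 : E ≤ 1 := by
    rw [hE, Real.exp_le_one_iff]
    have : 0 ≤ Real.pi / (4 * σ ^ 2) := by have := Real.pi_pos; positivity
    linarith
  let Tn : ℝ → Fin s → ℂ := fun t i => ∑ x ∈ Ico P (4 * P), rho0 σ t (((x : ℝ) + θ i) ^ k)
  have hcard : ((Ico P (4 * P)).card : ℝ) = 3 * P := by
    rw [Nat.card_Ico]
    have : 4 * P - P = 3 * P := by omega
    rw [this]; push_cast; ring
  have hd : ∀ t i, ‖T k P σ t (θ i) - Tn t i‖ ≤ A * E := by
    intro t i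
    show ‖T k P σ t (θ i) - ∑ x ∈ Ico P (4 * P), rho0 σ t (((x : ℝ) + θ i) ^ k)‖ ≤ _
    unfold T
    rw [← sum_sub_distrib]
    refine (norm_sum_le _ _).trans ?_
    refine (sum_le_sum fun x _ => rho_sub σ t _ hσ hσ1).trans ?_
    rw [sum_const, nsmul_eq_mul, hcard, hA]
    have : C0 * E ≤ (1 + C0) * E := by nlinarith
    nlinarith
  have hb : ∀ t i, ‖Tn t i‖ ≤ 3 * P := by
    intro t i
    refine (norm_sum_le _ _).trans ?_
    refine (sum_le_sum fun x _ => norm_rho0 σ t _).trans ?_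
    rw [sum_const, nsmul_eq_mul, hcard, mul_one]
  have hb' : ∀ t i, ‖Tn t i‖ ≤ A := by
    intro t i
    refine (hb t i).trans ?_
    rw [hA]
    nlinarith
  have ha : ∀ t i, ‖T k P σ t (θ i)‖ ≤ A := by
    intro t i
    have e1 : T k P σ t (θ i) = (T k P σ t (θ i) - Tn t i) + Tn t i := by ring
    rw [e1]
    refine (norm_add_le _ _).trans ?_
    have h1 : ‖T k P σ t (θ i) - Tn t i‖ ≤ 3 * P * C0 := by
      show ‖T k P σ t (θ i) - ∑ x ∈ Ico P (4 * P), rho0 σ t (((x : ℝ) + θ i) ^ k)‖ ≤ _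
      unfold T
      rw [← sum_sub_distrib]
      refine (norm_sum_le _ _).trans ?_
      refine (sum_le_sum fun x _ => rho_sub σ t _ hσ hσ1).trans ?_
      rw [sum_const, nsmul_eq_mul, hcard]
      have : C0 * E ≤ C0 := by nlinarith
      nlinarith
    have h2 := hb t i
    rw [hA]
    nlinarith
  have hpt : ∀ t : ℝ, ‖∏ i, T k P σ t (θ i) - ∏ i, Tn t i‖ ≤ s * A ^ s * E := by
    intro t
    have := prod_sub (univ : Finset (Fin s)) (fun i => T k P σ t (θ i)) (Tn t) A E hA0 hE0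
      (ha t) (hb' t) (hd t)
    rwa [card_univ, Fintype.card_fin] at this
  -- the main part
  have hexp : ∀ t : ℝ, e (-(t * N)) * ∏ i, Tn t i =
      ∑ x ∈ Fintype.piFinset (fun _ : Fin s => Ico P (4 * P)),
        (∏ i, ((Real.exp (-Real.pi * ((((x i : ℝ) + θ i) ^ k - 1 / 2 -
          (⌊((x i : ℝ) + θ i) ^ k⌋ : ℝ)) / σ) ^ 2) : ℝ) : ℂ)) *
          e (t * ((∑ i, ⌊((x i : ℝ) + θ i) ^ k⌋ - N : ℤ) : ℝ)) := by
    intro t
    have e1 : ∏ i, Tn t i = ∑ x ∈ Fintype.piFinset (fun _ : Fin s => Ico P (4 * P)),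
        ∏ i, rho0 σ t (((x i : ℝ) + θ i) ^ k) :=
      Finset.prod_univ_sum (fun _ : Fin s => Ico P (4 * P))
        (fun i x => rho0 σ t (((x : ℝ) + θ i) ^ k))
    rw [e1, mul_sum]
    refine sum_congr rfl fun x _ => ?_
    unfold rho0
    rw [prod_mul_distrib, ← e_sum]
    have e2 : t * ((∑ i, ⌊((x i : ℝ) + θ i) ^ k⌋ - N : ℤ) : ℝ) =
        -(t * N) + ∑ i, t * (⌊((x i : ℝ) + θ i) ^ k⌋ : ℝ) := by
      push_cast
      rw [← mul_sum]; ring
    rw [e2, e_add]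
    ring
  have hTnI : IntervalIntegrable (fun t => e (-(t * N)) * ∏ i, Tn t i) volume (-(1 / 2)) (1 / 2) := by
    apply Continuous.intervalIntegrable
    simp_rw [hexp]
    refine continuous_finset_sum _ fun x _ => ?_
    exact continuous_const.mul (cont_e _)
  have hzero : ∫ t in (-(1 / 2) : ℝ)..(1 / 2), e (-(t * N)) * ∏ i, Tn t i = 0 := by
    simp_rw [hexp]
    rw [intervalIntegral.integral_finset_sum]
    · refine sum_eq_zero fun x hx => ?_
      rw [intervalIntegral.integral_const_mul, int_e _ (sub_ne_zero.mpr (hN x hx)), mul_zero]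
    · intro x _
      exact (continuous_const.mul (cont_e _)).intervalIntegrable _ _
  have hEE : E ≤ Real.exp (-(Real.pi / (8 * σ ^ 2))) := by
    rw [hE, Real.exp_le_exp, neg_le_neg_iff]
    have := Real.pi_pos
    apply div_le_div_of_nonneg_left this.le (by positivity)
    nlinarith [sq_nonneg σ]
  have hfin : (s : ℝ) * A ^ s * E ≤
      (6 * (1 + C0) * P) ^ s * Real.exp (-(Real.pi / (8 * σ ^ 2))) := by
    have h1 : (6 * (1 + C0) * P) ^ s = 2 ^ s * A ^ s := by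
      rw [← mul_pow, hA]; congr 1; ring
    have h2 : (s : ℝ) ≤ 2 ^ s := by exact_mod_cast (Nat.lt_two_pow_self (n := s)).le
    rw [h1]
    refine mul_le_mul (mul_le_mul_of_nonneg_right h2 (by positivity)) hEE hE0 (by positivity)
  by_cases hI : IntervalIntegrable (fun t => e (-(t * N)) * ∏ i, T k P σ t (θ i)) volume
      (-(1 / 2)) (1 / 2)
  · have e1 : ∫ t in (-(1 / 2) : ℝ)..(1 / 2), e (-(t * N)) * ∏ i, T k P σ t (θ i) =
        ∫ t in (-(1 / 2) : ℝ)..(1 / 2), (e (-(t * N)) * ∏ i, T k P σ t (θ i) -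
          e (-(t * N)) * ∏ i, Tn t i) := by
      rw [intervalIntegral.integral_sub hI hTnI, hzero, sub_zero]
    rw [e1]
    have h1 := intervalIntegral.norm_integral_le_of_norm_le_const (a := (-(1 / 2) : ℝ))
      (b := 1 / 2) (C := s * A ^ s * E) (f := fun t => e (-(t * N)) * ∏ i, T k P σ t (θ i) -
          e (-(t * N)) * ∏ i, Tn t i) (fun t _ => by
        rw [← mul_sub, norm_mul, norm_e, one_mul]
        exact hpt t)
    refine h1.trans ?_
    have : |(1 / 2 : ℝ) - -(1 / 2)| = 1 := by norm_num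
    rw [this, mul_one]
    exact hfin
  · rw [intervalIntegral.integral_undef hI, norm_zero]
    positivity

end Pool.Agent.W514.WT
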